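import Pool.Agent.Y990.SH.Stm

/-! # Project SH: jobs SH-HALF and SH-BADP -/

set_option autoImplicit false
set_option linter.unusedSectionVars false

open MeasureTheory
open scoped Classical

namespace Pool.Agent.Y705.SH
open Pool.Agent.Y990.SH

section law

variable {I Ω X : Type} [Fintype I] [MeasurableSpace Ω] [Fintype X] {P : Measure Ω}
  [IsProbabilityMeasure P] {W : I → Ω → X} {μ : X → ℝ}

theorem rect (hm : ∀ t x, MeasurableSet {ω | W t ω = x})
    (hp : ∀ x : I → X, P.real {ω | ∀ t, W t ω = x t} = ∏ t, μ (x t)) (B : I → X → Prop) :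
    P.real {ω | ∀ t, B t (W t ω)} = ∏ t, ∑ x, if B t x then μ x else 0 := by
  have h1 : {ω | ∀ t, B t (W t ω)} =
      ⋃ x ∈ (Finset.univ.filter (fun x : I → X => ∀ t, B t (x t))), {ω | ∀ t, W t ω = x t} := by
    ext ω
    simp only [Set.mem_ofPred_eq, Finset.mem_filter, Finset.mem_univ, true_and, Set.mem_iUnion,
      exists_prop]
    constructor
    · intro h
      exact ⟨fun t => W t ω, h, fun t => rfl⟩
    · rintro ⟨x, h, h2⟩ t
      rw [h2 t]
      exact h t
  rw [h1, measureReal_biUnion_finset, Finset.sum_filter]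
  · simp only [hp]
    have h2 := Finset.prod_univ_sum (fun _ : I => (Finset.univ : Finset X))
      (fun t x => if B t x then μ x else 0)
    rw [h2, Fintype.piFinset_univ]
    refine Finset.sum_congr rfl fun x _ => ?_
    rw [Fintype.prod_ite_zero]
  · intro x _ y _ hxy
    rw [Function.onFun, Set.disjoint_left]
    intro ω h2 h3
    exact hxy (funext fun t => (h2 t).symm.trans (h3 t))
  · intro x _
    rw [Set.ofPred_forall]
    exact MeasurableSet.iInter fun t => hm t (x t)

theorem pair (hm : ∀ t x, MeasurableSet {ω | W t ω = x})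
    (hp : ∀ x : I → X, P.real {ω | ∀ t, W t ω = x t} = ∏ t, μ (x t)) (h1 : ∑ x, μ x = 1)
    {s s' : I} (hs : s ≠ s') (x y : X) :
    P.real {ω | W s ω = x ∧ W s' ω = y} = μ x * μ y := by
  have h2 := rect hm hp (fun r v => (r = s → v = x) ∧ (r = s' → v = y))
  have h3 : {ω | ∀ t, (t = s → W t ω = x) ∧ (t = s' → W t ω = y)} =
      {ω | W s ω = x ∧ W s' ω = y} := by
    ext ω
    constructor
    · intro h
      exact ⟨(h s).1 rfl, (h s').2 rfl⟩
    · rintro ⟨h4, h5⟩ t
      exact ⟨fun e => e ▸ h4, fun e => e ▸ h5⟩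
  rw [h3] at h2
  rw [h2, Finset.prod_eq_mul s s' hs]
  · congr 1
    · simp [hs]
    · simp [hs.symm]
  · intro c _ hc
    simp [hc.1, hc.2, h1]
  · intro h
    exact absurd (Finset.mem_univ _) h
  · intro h
    exact absurd (Finset.mem_univ _) h

/-- union bound over the values of two coordinates -/
theorem ub (s s' : I) (F : X → X → Prop) (S : X → X → Set Ω) :
    P.real {ω | F (W s ω) (W s' ω) ∧ ω ∈ S (W s ω) (W s' ω)} ≤
      ∑ x, ∑ y, if F x y then P.real ({ω | W s ω = x ∧ W s' ω = y} ∩ S x y) else 0 := by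
  have h1 : {ω | F (W s ω) (W s' ω) ∧ ω ∈ S (W s ω) (W s' ω)} ⊆
      ⋃ p ∈ (Finset.univ.filter (fun p : X × X => F p.1 p.2)),
        ({ω | W s ω = p.1 ∧ W s' ω = p.2} ∩ S p.1 p.2) := by
    rintro ω ⟨h2, h3⟩
    simp only [Finset.mem_filter, Finset.mem_univ, true_and, Set.mem_iUnion, exists_prop]
    exact ⟨(W s ω, W s' ω), h2, ⟨rfl, rfl⟩, h3⟩
  refine (measureReal_mono h1 (measure_ne_top _ _)).trans ((measureReal_biUnion_finset_le _ _).trans ?_)
  rw [Finset.sum_filter, Fintype.sum_prod_type]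

theorem total2 (h1 : ∑ x, μ x = 1) : ∑ x, ∑ z, μ x * μ z = 1 := by
  rw [← Finset.sum_mul_sum, h1, one_mul]

end law

theorem half : S_half := by
  intro A g m J δ δ₁ Ω X _ _ P _ W μ N t l hA hδ₁ hδ hm hN hp h0 h1 hprod hall
  have hw : ∀ x z, P.real {ω | W (Sum.inl t) ω = x ∧ W (Sum.inr l) ω = z} = μ x * μ z :=
    fun x z => pair hm hp h1 (by simp) x z
  have hAA : 1 ≤ A * A := Nat.mul_pos hA hA
  have key : ∀ x z, ¬ (∃ a b, Rel P W μ N δ₁ t x a l z b) →
      δ₁ ^ (A * A) * (μ x * μ z) ≤ P.real ({ω | ∀ a b, ω ∈ N (Sum.inl t) a (Sum.inr l) b} ∩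
        {ω | W (Sum.inl t) ω = x ∧ W (Sum.inr l) ω = z}) := by
    intro x z hno
    have hlt : ∀ a b, δ₁ * (μ x * μ z) < P.real (N (Sum.inl t) a (Sum.inr l) b ∩
        {ω | W (Sum.inl t) ω = x ∧ W (Sum.inr l) ω = z}) :=
      fun a b => not_le.1 fun h => hno ⟨a, b, h⟩
    have hwpos : 0 < μ x * μ z := by
      rcases (mul_nonneg (h0 x) (h0 z)).lt_or_eq with h | h
      · exact h
      · exfalso
        have h2 := hlt ⟨0, hA⟩ ⟨0, hA⟩
        have h3 : P.real (N (Sum.inl t) ⟨0, hA⟩ (Sum.inr l) ⟨0, hA⟩ ∩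
            {ω | W (Sum.inl t) ω = x ∧ W (Sum.inr l) ω = z}) ≤ μ x * μ z := by
          rw [← hw]
          exact measureReal_mono Set.inter_subset_right
        rw [← h] at h2 h3
        linarith
    have h2 := hprod x z
    rw [hw] at h2
    have h3 : (δ₁ * (μ x * μ z)) ^ (A * A) ≤
        ∏ a : Fin A, ∏ b : Fin A, P.real (N (Sum.inl t) a (Sum.inr l) b ∩
          {ω | W (Sum.inl t) ω = x ∧ W (Sum.inr l) ω = z}) := by
      have h4 : (δ₁ * (μ x * μ z)) ^ (A * A) =
          ∏ _a : Fin A, ∏ _b : Fin A, δ₁ * (μ x * μ z) := by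
        simp only [Finset.prod_const, Finset.card_univ, Fintype.card_fin, pow_mul]
      rw [h4]
      have hpos : 0 ≤ δ₁ * (μ x * μ z) := (mul_pos hδ₁ hwpos).le
      refine Finset.prod_le_prod (fun a _ => Finset.prod_nonneg fun b _ => hpos) fun a _ => ?_
      exact Finset.prod_le_prod (fun b _ => hpos) fun b _ => (hlt a b).le
    have h4 : (δ₁ * (μ x * μ z)) ^ (A * A) =
        (μ x * μ z) ^ (A * A - 1) * (δ₁ ^ (A * A) * (μ x * μ z)) := by
      rw [mul_pow]
      have h5 : (μ x * μ z) ^ (A * A) = (μ x * μ z) ^ (A * A - 1) * (μ x * μ z) := by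
        rw [← pow_succ, Nat.sub_add_cancel hAA]
      rw [h5]
      ring
    rw [h4] at h3
    exact le_of_mul_le_mul_left (h3.trans h2) (pow_pos hwpos _)
  have hsum : ∑ x, ∑ z, P.real ({ω | ∀ a b, ω ∈ N (Sum.inl t) a (Sum.inr l) b} ∩
        {ω | W (Sum.inl t) ω = x ∧ W (Sum.inr l) ω = z}) ≤
      P.real {ω | ∀ a b, ω ∈ N (Sum.inl t) a (Sum.inr l) b} := by
    have h2 := measureReal_biUnion_finset (μ := P) (s := (Finset.univ : Finset (X × X)))
      (f := fun p => {ω | ∀ a b, ω ∈ N (Sum.inl t) a (Sum.inr l) b} ∩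
        {ω | W (Sum.inl t) ω = p.1 ∧ W (Sum.inr l) ω = p.2}) (by
        intro p _ p' _ hne
        rw [Function.onFun, Set.disjoint_left]
        rintro ω ⟨_, h3, h4⟩ ⟨_, h5, h6⟩
        exact hne (Prod.ext (h3.symm.trans h5) (h4.symm.trans h6))) (by
        intro p _
        refine MeasurableSet.inter ?_ ((hm _ _).inter (hm _ _))
        rw [Set.ofPred_forall]
        refine MeasurableSet.iInter fun a => ?_
        rw [Set.ofPred_forall]
        exact MeasurableSet.iInter fun b => hN _ _ _ _)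
    rw [Fintype.sum_prod_type] at h2
    rw [← h2]
    refine measureReal_mono ?_
    intro ω hω
    simp only [Set.mem_iUnion] at hω
    obtain ⟨p, _, h3⟩ := hω
    exact h3.1
  have hU : δ₁ ^ (A * A) * (∑ x, ∑ z, if ∃ a b, Rel P W μ N δ₁ t x a l z b then 0
      else μ x * μ z) ≤ δ := by
    refine le_trans ?_ (hsum.trans hall)
    rw [Finset.mul_sum]
    refine Finset.sum_le_sum fun x _ => ?_
    rw [Finset.mul_sum]
    refine Finset.sum_le_sum fun z _ => ?_
    split_ifs with h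
    · rw [mul_zero]
      exact measureReal_nonneg
    · exact key x z h
  have hsplit : (∑ x, ∑ z, if ∃ a b, Rel P W μ N δ₁ t x a l z b then μ x * μ z else 0) +
      (∑ x, ∑ z, if ∃ a b, Rel P W μ N δ₁ t x a l z b then 0 else μ x * μ z) = 1 := by
    rw [← total2 h1, ← Finset.sum_add_distrib]
    refine Finset.sum_congr rfl fun x _ => ?_
    rw [← Finset.sum_add_distrib]
    refine Finset.sum_congr rfl fun z _ => ?_
    split_ifs <;> ring
  have hD : 0 < δ₁ ^ (A * A) := pow_pos hδ₁ _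
  have hfin : (∑ x, ∑ z, if ∃ a b, Rel P W μ N δ₁ t x a l z b then 0 else μ x * μ z) ≤ 1 / 2 := by
    have h2 := hU.trans hδ
    rw [div_eq_mul_one_div] at h2
    exact le_of_mul_le_mul_left h2 hD
  linarith

theorem tri {g m J : ℕ} {Ω X : Type} [MeasurableSpace Ω] [Fintype X] {P : Measure Ω}
    [IsProbabilityMeasure P] {W : Idx g m J → Ω → X} {μ : X → ℝ}
    (hm : ∀ t x, MeasurableSet {ω | W t ω = x})
    (hp : ∀ x : Idx g m J → X, P.real {ω | ∀ t, W t ω = x t} = ∏ t, μ (x t))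
    (h1 : ∑ x, μ x = 1) {t t' : Tg g m} (ht : t ≠ t') (x y : X) (G : Fin J → X → Prop) :
    P.real {ω | (W (Sum.inl t) ω = x ∧ W (Sum.inl t') ω = y) ∧ ∀ l, G l (W (Sum.inr l) ω)} =
      μ x * μ y * ∏ l, ∑ v, if G l v then μ v else 0 := by
  have h2 := rect hm hp (fun r v => Sum.elim (fun r => (r = t → v = x) ∧ (r = t' → v = y))
    (fun l => G l v) r)
  have h3 : {ω | ∀ r : Idx g m J, Sum.elim (fun r => (r = t → W (Sum.inl r) ω = x) ∧
      (r = t' → W (Sum.inl r) ω = y)) (fun l => G l (W (Sum.inr l) ω)) r} =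
      {ω | (W (Sum.inl t) ω = x ∧ W (Sum.inl t') ω = y) ∧ ∀ l, G l (W (Sum.inr l) ω)} := by
    ext ω
    constructor
    · intro h
      exact ⟨⟨(h (Sum.inl t)).1 rfl, (h (Sum.inl t')).2 rfl⟩, fun l => h (Sum.inr l)⟩
    · rintro ⟨⟨h4, h5⟩, h6⟩ r
      cases r with
      | inl r => exact ⟨fun e => e ▸ h4, fun e => e ▸ h5⟩
      | inr l => exact h6 l
  have h4 : {ω | ∀ r : Idx g m J, Sum.elim (fun r' => (r' = t → W r ω = x) ∧
      (r' = t' → W r ω = y)) (fun l => G l (W r ω)) r} =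
      {ω | ∀ r : Idx g m J, Sum.elim (fun r => (r = t → W (Sum.inl r) ω = x) ∧
      (r = t' → W (Sum.inl r) ω = y)) (fun l => G l (W (Sum.inr l) ω)) r} := by
    ext ω
    refine forall_congr' fun r => ?_
    cases r <;> rfl
  rw [h4, h3] at h2
  rw [h2, Fintype.prod_sum_type]
  congr 1
  rw [Finset.prod_eq_mul t t' ht]
  · congr 1
    · simp [ht]
    · simp [ht.symm]
  · intro c _ hc
    simp [hc.1, hc.2, h1]
  · intro h
    exact absurd (Finset.mem_univ _) h
  · intro h
    exact absurd (Finset.mem_univ _) h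

theorem badp : S_badp := by
  intro A g m J δ₁ ρ Ω X _ _ P _ W μ N t t' l z b hA hδ₁ hρ ht hm hN hp h0 h1 hsub
  obtain ⟨R, hR⟩ : ∃ R, R = Rel P W μ N δ₁ := ⟨_, rfl⟩
  rw [← hR]
  have hAr : (1 : ℝ) ≤ A := by exact_mod_cast hA
  have hpos : ∀ x y, 0 ≤ μ x * μ y := fun x y => mul_nonneg (h0 x) (h0 y)
  -- the three kinds of events
  obtain ⟨E1, hE1⟩ : ∃ E1 : Fin A → Fin A → Set Ω, E1 = fun a a' =>
    {ω | (R t (W (Sum.inl t) ω) a l z b ∧ R t' (W (Sum.inl t') ω) a' l z b ∧
      ov μ R t (W (Sum.inl t) ω) a t' (W (Sum.inl t') ω) a' < ρ) ∧ ω ∈ (Set.univ : Set Ω)} :=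
    ⟨_, rfl⟩
  obtain ⟨E2, hE2⟩ : ∃ E2 : Fin A → Fin A → Set Ω, E2 = fun a a' =>
    {ω | ρ ≤ ov μ R t (W (Sum.inl t) ω) a t' (W (Sum.inl t') ω) a' ∧
      ω ∈ (fun x y => {ω | ∀ l', ¬ ∃ b', R t x a l' (W (Sum.inr l') ω) b' ∧
        R t' y a' l' (W (Sum.inr l') ω) b'}) (W (Sum.inl t) ω) (W (Sum.inl t') ω)} := ⟨_, rfl⟩
  obtain ⟨E3, hE3⟩ : ∃ E3 : Tg g m → Fin A → Fin J → Fin A → Set Ω, E3 = fun t a l' b' =>
    {ω | R t (W (Sum.inl t) ω) a l' (W (Sum.inr l') ω) b' ∧
      ω ∈ (fun _ _ => N (Sum.inl t) a (Sum.inr l') b') (W (Sum.inl t) ω)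
        (W (Sum.inr l') ω)} := ⟨_, rfl⟩
  have hcover : {ω | ∃ a a', R t (W (Sum.inl t) ω) a l z b ∧
      R t' (W (Sum.inl t') ω) a' l z b ∧ ω ∈ N (Sum.inl t) a (Sum.inl t') a'} ⊆
      ⋃ p ∈ (Finset.univ : Finset (Fin A × Fin A)), ((E1 p.1 p.2 ∪ E2 p.1 p.2) ∪
        ⋃ r ∈ (Finset.univ : Finset (Fin J × Fin A)),
          (E3 t p.1 r.1 r.2 ∪ E3 t' p.2 r.1 r.2)) := by
    rintro ω ⟨a, a', h2, h3, h4⟩
    simp only [Set.mem_iUnion]
    refine ⟨(a, a'), Finset.mem_univ _, ?_⟩
    rcases lt_or_ge (ov μ R t (W (Sum.inl t) ω) a t' (W (Sum.inl t') ω) a') ρ with h5 | h5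
    · left; left
      rw [hE1]
      exact ⟨⟨h2, h3, h5⟩, trivial⟩
    · by_cases h6 : ∃ l' b', R t (W (Sum.inl t) ω) a l' (W (Sum.inr l') ω) b' ∧
        R t' (W (Sum.inl t') ω) a' l' (W (Sum.inr l') ω) b'
      · right
        obtain ⟨l', b', h7, h8⟩ := h6
        simp only [Set.mem_iUnion]
        refine ⟨(l', b'), Finset.mem_univ _, ?_⟩
        rcases hsub (Sum.inl t) a (Sum.inl t') a' l' b' h4 with h9 | h9
        · left
          rw [hE3]
          exact ⟨h7, h9⟩
        · right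
          rw [hE3]
          exact ⟨h8, h9⟩
      · left; right
        rw [hE2]
        refine ⟨h5, ?_⟩
        intro l' h7
        exact h6 ⟨l', h7⟩
  -- the probabilities
  have p1 : ∀ a a', P.real (E1 a a') ≤ ∑ x, ∑ y, if R t x a l z b ∧ R t' y a' l z b ∧
      ov μ R t x a t' y a' < ρ then μ x * μ y else 0 := by
    intro a a'
    rw [hE1]
    refine (ub (W := W) (Sum.inl t) (Sum.inl t') (fun x y => R t x a l z b ∧ R t' y a' l z b ∧
      ov μ R t x a t' y a' < ρ) (fun _ _ => Set.univ)).trans (le_of_eq ?_)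
    refine Finset.sum_congr rfl fun x _ => Finset.sum_congr rfl fun y _ => ?_
    rw [Set.inter_univ, pair hm hp h1 (by simpa using ht)]
    split_ifs <;> rfl
  have p2 : ∀ a a', P.real (E2 a a') ≤ Real.exp (-(J * ρ)) := by
    intro a a'
    rw [hE2]
    refine (ub (W := W) (Sum.inl t) (Sum.inl t') (fun x y => ρ ≤ ov μ R t x a t' y a')
      (fun x y => {ω | ∀ l', ¬ ∃ b', R t x a l' (W (Sum.inr l') ω) b' ∧
        R t' y a' l' (W (Sum.inr l') ω) b'})).trans ?_
    have h2 : ∀ x y, (if ρ ≤ ov μ R t x a t' y a' then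
        P.real ({ω | W (Sum.inl t) ω = x ∧ W (Sum.inl t') ω = y} ∩
          {ω | ∀ l', ¬ ∃ b', R t x a l' (W (Sum.inr l') ω) b' ∧
            R t' y a' l' (W (Sum.inr l') ω) b'}) else 0) ≤
        μ x * μ y * Real.exp (-(J * ρ)) := by
      intro x y
      split_ifs with h3
      · have h4 := tri hm hp h1 ht x y (fun l' v => ¬ ∃ b', R t x a l' v b' ∧ R t' y a' l' v b')
        have h5 : {ω | W (Sum.inl t) ω = x ∧ W (Sum.inl t') ω = y} ∩
          {ω | ∀ l', ¬ ∃ b', R t x a l' (W (Sum.inr l') ω) b' ∧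
            R t' y a' l' (W (Sum.inr l') ω) b'} =
          {ω | (W (Sum.inl t) ω = x ∧ W (Sum.inl t') ω = y) ∧
            ∀ l', ¬ ∃ b', R t x a l' (W (Sum.inr l') ω) b' ∧
            R t' y a' l' (W (Sum.inr l') ω) b'} := rfl
        rw [h5, h4]
        refine mul_le_mul_of_nonneg_left ?_ (hpos x y)
        obtain ⟨qq, hqq⟩ : ∃ qq : Fin J → ℝ, qq = fun l' =>
          ∑ v, if ∃ b', R t x a l' v b' ∧ R t' y a' l' v b' then μ v else 0 := ⟨_, rfl⟩
        have h6 : ∀ l', (∑ v, if ¬ ∃ b', R t x a l' v b' ∧ R t' y a' l' v b' then μ v else 0) =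
            1 - qq l' := by
          intro l'
          rw [hqq, ← h1, ← Finset.sum_sub_distrib]
          refine Finset.sum_congr rfl fun v _ => ?_
          by_cases h7 : ∃ b', R t x a l' v b' ∧ R t' y a' l' v b'
          · rw [if_neg (not_not.2 h7), if_pos h7, sub_self]
          · rw [if_pos h7, if_neg h7, sub_zero]
        have h7 : ∏ l', (∑ v, if ¬ ∃ b', R t x a l' v b' ∧ R t' y a' l' v b' then μ v else 0) ≤
            ∏ l', Real.exp (-(qq l')) := by
          refine Finset.prod_le_prod (fun l' _ => Finset.sum_nonneg fun v _ => ?_) fun l' _ => ?_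
          · split_ifs
            all_goals first | exact le_rfl | exact h0 v
          · rw [h6 l']
            have := Real.add_one_le_exp (-(qq l'))
            linarith
        refine (le_trans (le_of_eq (Finset.prod_congr rfl fun l' _ =>
          Finset.sum_congr rfl fun v _ => by split_ifs <;> rfl)) h7).trans ?_
        rw [← Real.exp_sum, Real.exp_le_exp, Finset.sum_neg_distrib, neg_le_neg_iff]
        -- `J ρ ≤ ∑ q`
        have h8 : (∑ l' : Fin J, ∑ v : X, ∑ b' : Fin A,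
            if R t x a l' v b' ∧ R t' y a' l' v b' then μ v else 0) ≤ A * ∑ l', qq l' := by
          rw [Finset.mul_sum]
          refine Finset.sum_le_sum fun l' _ => ?_
          rw [hqq]
          show _ ≤ (A : ℝ) * ∑ v, _
          rw [Finset.mul_sum]
          refine Finset.sum_le_sum fun v _ => ?_
          by_cases h9 : ∃ b', R t x a l' v b' ∧ R t' y a' l' v b'
          · rw [if_pos h9]
            calc (∑ b' : Fin A, if R t x a l' v b' ∧ R t' y a' l' v b' then μ v else 0)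
                ≤ ∑ b' : Fin A, μ v := by
                  refine Finset.sum_le_sum fun b' _ => ?_
                  split_ifs
                  exacts [le_rfl, h0 v]
              _ = A * μ v := by
                  rw [Finset.sum_const, Finset.card_univ, Fintype.card_fin, nsmul_eq_mul]
          · rw [if_neg h9, mul_zero]
            refine le_of_eq (Finset.sum_eq_zero fun b' _ => ?_)
            rw [if_neg fun h => h9 ⟨b', h⟩]
        have h9 : ov μ R t x a t' y a' * (J * A) ≤ (∑ l' : Fin J, ∑ v : X, ∑ b' : Fin A,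
            if R t x a l' v b' ∧ R t' y a' l' v b' then μ v else 0) := by
          unfold ov
          rcases Nat.eq_zero_or_pos J with hJ | hJ
          · subst hJ
            simp
          · have hJr : (0 : ℝ) < J := by exact_mod_cast hJ
            rw [div_mul_cancel₀ _ (by positivity)]
        have h10 : (J : ℝ) * ρ * A ≤ A * ∑ l', qq l' := by
          refine le_trans ?_ (h9.trans h8)
          have : (J : ℝ) * ρ * A = ρ * (J * A) := by ring
          rw [this]
          exact mul_le_mul_of_nonneg_right h3 (by positivity)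
        have h11 : (A : ℝ) * (J * ρ) ≤ A * ∑ l', qq l' := by linarith
        exact le_of_mul_le_mul_left h11 (by linarith)
      · exact mul_nonneg (hpos x y) (Real.exp_pos _).le
    calc _ ≤ ∑ x, ∑ y, μ x * μ y * Real.exp (-(J * ρ)) :=
          Finset.sum_le_sum fun x _ => Finset.sum_le_sum fun y _ => h2 x y
      _ = (∑ x, ∑ y, μ x * μ y) * Real.exp (-(J * ρ)) := by
          simp only [Finset.sum_mul]
      _ = Real.exp (-(J * ρ)) := by rw [total2 h1, one_mul]
  have p3 : ∀ t a l' b', P.real (E3 t a l' b') ≤ δ₁ := by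
    intro t a l' b'
    rw [hE3]
    refine (ub (W := W) (Sum.inl t) (Sum.inr l') (fun x v => R t x a l' v b')
      (fun _ _ => N (Sum.inl t) a (Sum.inr l') b')).trans ?_
    calc _ ≤ ∑ x, ∑ v, δ₁ * (μ x * μ v) := by
          refine Finset.sum_le_sum fun x _ => Finset.sum_le_sum fun v _ => ?_
          split_ifs with h2
          · rw [hR] at h2
            unfold Pool.Agent.Y990.SH.Rel at h2
            rw [Set.inter_comm]
            exact h2
          · exact mul_nonneg hδ₁.le (hpos x v)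
      _ = δ₁ * ∑ x, ∑ v, μ x * μ v := by
          simp only [Finset.mul_sum]
      _ = δ₁ := by rw [total2 h1, mul_one]
  -- the union bound
  refine (measureReal_mono hcover (measure_ne_top _ _)).trans
    ((measureReal_biUnion_finset_le _ _).trans ?_)
  have h2 : ∀ p : Fin A × Fin A, P.real ((E1 p.1 p.2 ∪ E2 p.1 p.2) ∪
        ⋃ r ∈ (Finset.univ : Finset (Fin J × Fin A)),
          (E3 t p.1 r.1 r.2 ∪ E3 t' p.2 r.1 r.2)) ≤
      (∑ x, ∑ y, if R t x p.1 l z b ∧ R t' y p.2 l z b ∧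
        ov μ R t x p.1 t' y p.2 < ρ then μ x * μ y else 0) +
        (Real.exp (-(J * ρ)) + J * A * (2 * δ₁)) := by
    intro p
    have h3 : P.real (⋃ r ∈ (Finset.univ : Finset (Fin J × Fin A)),
        (E3 t p.1 r.1 r.2 ∪ E3 t' p.2 r.1 r.2)) ≤ J * A * (2 * δ₁) := by
      refine (measureReal_biUnion_finset_le _ _).trans ?_
      calc _ ≤ ∑ _r : Fin J × Fin A, 2 * δ₁ := by
            refine Finset.sum_le_sum fun r _ => ?_
            refine (measureReal_union_le _ _).trans ?_
            have h4 := p3 t p.1 r.1 r.2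
            have h5 := p3 t' p.2 r.1 r.2
            linarith
        _ = J * A * (2 * δ₁) := by
            rw [Finset.sum_const, Finset.card_univ, Fintype.card_prod, Fintype.card_fin,
              Fintype.card_fin, nsmul_eq_mul]
            push_cast
            ring
    have h4 := measureReal_union_le (μ := P) (E1 p.1 p.2 ∪ E2 p.1 p.2)
      (⋃ r ∈ (Finset.univ : Finset (Fin J × Fin A)), (E3 t p.1 r.1 r.2 ∪ E3 t' p.2 r.1 r.2))
    have h5 := measureReal_union_le (μ := P) (E1 p.1 p.2) (E2 p.1 p.2)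
    have h6 := p1 p.1 p.2
    have h7 := p2 p.1 p.2
    linarith
  refine (Finset.sum_le_sum fun p _ => h2 p).trans ?_
  rw [Finset.sum_add_distrib, Finset.sum_const, Finset.card_univ, Fintype.card_prod,
    Fintype.card_fin, nsmul_eq_mul, Fintype.sum_prod_type]
  have h3 : ∑ a : Fin A, ∑ a' : Fin A, (∑ x, ∑ y, if R t x a l z b ∧ R t' y a' l z b ∧
        ov μ R t x a t' y a' < ρ then μ x * μ y else 0) = be μ R ρ t t' l z b := by
    unfold be
    calc _ = ∑ a : Fin A, ∑ x, ∑ a' : Fin A, ∑ y, (if R t x a l z b ∧ R t' y a' l z b ∧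
        ov μ R t x a t' y a' < ρ then μ x * μ y else 0) :=
          Finset.sum_congr rfl fun a _ => Finset.sum_comm
      _ = ∑ x, ∑ a : Fin A, ∑ a' : Fin A, ∑ y, (if R t x a l z b ∧ R t' y a' l z b ∧
        ov μ R t x a t' y a' < ρ then μ x * μ y else 0) := Finset.sum_comm
      _ = ∑ x, ∑ a : Fin A, ∑ y, ∑ a' : Fin A, (if R t x a l z b ∧ R t' y a' l z b ∧
        ov μ R t x a t' y a' < ρ then μ x * μ y else 0) :=
          Finset.sum_congr rfl fun x _ => Finset.sum_congr rfl fun a _ => Finset.sum_comm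
      _ = ∑ x, ∑ y, ∑ a : Fin A, ∑ a' : Fin A, (if R t x a l z b ∧ R t' y a' l z b ∧
        ov μ R t x a t' y a' < ρ then μ x * μ y else 0) :=
          Finset.sum_congr rfl fun x _ => Finset.sum_comm
  rw [h3]
  push_cast
  refine le_of_eq ?_
  ring

end Pool.Agent.Y705.SH
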